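import Pool.Agent.H43Z.LowMain

set_option autoImplicit false

namespace Pool.Agent.Results.MP_1308e3_lc.NoComputableCopy

open Pool.Agent.H43Z.LowOrd

/-- There are a computable field `F` and a low ordering of `F` such that no computable field `K`
with a computable ordering is isomorphic to `F` (not even as a field, so in particular not as an
ordered field). -/
theorem result : ∃ (F : Type) (_ : Field F) (ν : F → ℕ) (lt : F → F → Prop),
    IsComputableField ν ∧ IsFieldOrdering lt ∧ IsLow (orderCode ν lt) ∧
    ∀ (K : Type) [Field K] (μ : K → ℕ) (lt' : K → K → Prop), IsComputableField μ →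
      IsFieldOrdering lt' → ComputablePred (fun n => n ∈ orderCode μ lt') → IsEmpty (F ≃+* K) :=
  main

end Pool.Agent.Results.MP_1308e3_lc.NoComputableCopy
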